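import Pool.Agent.H78.S.TA

/-!
# MP_9d0bb7_lc, row FGB of sgt_modules
-/

set_option autoImplicit false

namespace Pool.Agent.H53.S

open Pool.Agent.H78.S

/-- the image of a normal subgroup of `L` under a surjection to a simple group -/
theorem map_bot_or_top {L Q : Type} [Group L] [Group Q] [IsSimpleGroup Q] (π : L →* Q)
    (hπ : Function.Surjective π) (A : Subgroup L) [A.Normal] : A ≤ π.ker ∨ A.map π = ⊤ := by
  have hN : (A.map π).Normal := Subgroup.Normal.map inferInstance π hπ
  rcases hN.eq_bot_or_eq_top with h | h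
  · left
    intro x hx
    have : π x ∈ A.map π := Subgroup.mem_map_of_mem π hx
    rw [h, Subgroup.mem_bot] at this
    exact this
  · right
    exact h

theorem pf_FGB : T_FGB := by
  intro s Q _ _ _ hab hs k L _ ι π hπ
  obtain ⟨a, b, hab⟩ := hab
  induction k with
  | zero =>
    intro hle
    have h1 : ∀ x : L, π x = 1 := by
      intro x
      have : x ∈ ι.ker := by
        rw [MonoidHom.mem_ker]
        exact Subsingleton.elim _ _
      exact hle this
    obtain ⟨x, rfl⟩ := hπ a
    obtain ⟨y, rfl⟩ := hπ b
    apply hab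
    rw [h1 x, h1 y]
  | succ k ih =>
    intro hle
    -- the coordinate 0 and the others
    let ι0 : L →* Equiv.Perm (Fin s) := (Pi.evalMonoidHom _ (0 : Fin (k + 1))).comp ι
    let ι1 : L →* (Fin k → Equiv.Perm (Fin s)) :=
      MonoidHom.pi (fun i : Fin k => (Pi.evalMonoidHom _ (Fin.succ i)).comp ι)
    have hinter : ∀ x : L, x ∈ ι0.ker → x ∈ ι1.ker → x ∈ π.ker := by
      intro x h0 h1
      apply hle
      rw [MonoidHom.mem_ker] at h0 h1 ⊢
      funext i
      refine Fin.cases ?_ (fun i => ?_) i
      · exact h0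
      · exact congrFun h1 i
    rcases map_bot_or_top π hπ ι1.ker with h1 | h1
    · exact ih ι1 h1
    rcases map_bot_or_top π hπ ι0.ker with h0 | h0
    · -- `Q` is a quotient of a subgroup of the symmetric group
      have hcard : Nat.card Q ≤ Nat.card (Equiv.Perm (Fin s)) := by
        classical
        have hch : ∀ q : Q, ∃ x : L, π x = q := hπ
        choose g hg using hch
        refine Nat.card_le_card_of_injective (fun q : Q => ι0 (g q)) ?_
        intro q1 q2 h12
        have h12' : ι0 (g q1) = ι0 (g q2) := h12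
        have h3 : (g q1)⁻¹ * g q2 ∈ ι0.ker := by
          rw [MonoidHom.mem_ker, map_mul, map_inv, h12']
          simp
        have h4 := h0 h3
        rw [MonoidHom.mem_ker, map_mul, map_inv, hg, hg, inv_mul_eq_one] at h4
        exact h4
      rw [Nat.card_eq_fintype_card (α := Equiv.Perm (Fin s)), Fintype.card_perm,
        Fintype.card_fin] at hcard
      omega
    · have ha : a ∈ ι0.ker.map π := by rw [h0]; trivial
      have hb : b ∈ ι1.ker.map π := by rw [h1]; trivial
      obtain ⟨x, hx, rfl⟩ := ha
      obtain ⟨y, hy, rfl⟩ := hb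
      have hx' : x ∈ ι0.ker := hx
      have hy' : y ∈ ι1.ker := hy
      have hc : x * y * x⁻¹ * y⁻¹ ∈ π.ker := by
        refine hinter _ ?_ ?_
        · have h2 : y * x⁻¹ * y⁻¹ ∈ ι0.ker :=
            (inferInstance : ι0.ker.Normal).conj_mem _ (ι0.ker.inv_mem hx') y
          have h3 := ι0.ker.mul_mem hx' h2
          simpa [mul_assoc] using h3
        · have h2 : x * y * x⁻¹ ∈ ι1.ker :=
            (inferInstance : ι1.ker.Normal).conj_mem _ hy' x
          exact ι1.ker.mul_mem h2 (ι1.ker.inv_mem hy')
      rw [MonoidHom.mem_ker, map_mul, map_mul, map_mul, map_inv, map_inv] at hc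
      apply hab
      have h5 : π x * π y * (π x)⁻¹ = π y := by
        rw [mul_inv_eq_one] at hc
        exact hc
      rw [mul_inv_eq_iff_eq_mul] at h5
      exact h5

end Pool.Agent.H53.S
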