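import Pool.Agent.H78.S.Targets

/-!
# MP_9d0bb7_lc, row LCJ of sgt_modules: conjugation of the lines of a frame
-/

set_option autoImplicit false

open Set Pool.Agent.H77.BC
open scoped Pointwise

namespace Pool.Agent.H53.S

open Pool.Agent.H78.S

theorem pf_LCJ (hCJH : T_CJH) (hLMV : T_LMV) (hLNU : T_LNU) (hHIC : T_HIC) : T_LCJ := by
  intro M U G S _ _ _ _ n x hF g σ hg h0 i hi E hE
  have := hF.dg
  have := hF.ful
  have hact := hF.act
  obtain ⟨c1, c2, c3, _⟩ := hCJH U x hF g σ hg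
  have e1 : cj g⁻¹ (HH U G x 0 i) = HH U G x 0 (σ i) := by
    rw [c1 0 i, h0]
  have e2 : cj g⁻¹ (TT U G x 0) = TT U G x 0 := by
    rw [c2 0, h0]
  have e3 : g • XX U G x i = XX U G x (σ i) := c3 h0 i
  have e4 : g • x i = x (σ i) := hg i
  have e5 : g • x 0 = x 0 := by rw [hg 0, h0]
  have hσi : σ i ≠ 0 := by
    intro h
    apply hi
    apply σ.injective
    rw [h, h0]
  have key : ∀ (L : LF U G x i E) (H' : Subgroup G) (X' : Set S) (o' e' : S),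
      cj g⁻¹ (HH U G x 0 i) = H' → g • XX U G x i = X' → g • x i = o' → g • x 0 = e' →
      ∃ (L1 : LB U H' X' o' e' (mv g E)) (φ : L.K ≃+* L1.K),
        ∀ y, L1.f y = φ (L.f (g⁻¹ • y)) := by
    rintro L _ _ _ _ rfl rfl rfl rfl
    exact (hLMV U hact _ _ _ _ E L g).1
  obtain ⟨L0⟩ := hE
  refine ⟨?_, ?_, ?_⟩
  · obtain ⟨L1, _⟩ := key L0 _ _ _ _ e1 e3 e4 e5
    exact ⟨L1⟩
  · have h := (hLMV U hact _ _ _ _ E L0 g).2 (TT U G x 0)
    rw [e2] at h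
    exact h
  · intro L L'
    obtain ⟨L1, φ1, h1⟩ := key L _ _ _ _ e1 e3 e4 e5
    obtain ⟨φ2, h2⟩ := hLNU U hact _ _ _ _ _ (hHIC U x hF (σ i) hσi).1 (mv g E) L1 L'
    refine ⟨φ1.trans φ2, fun y hy => ?_⟩
    have h3 : g • y ∈ XX U G x (σ i) := by
      rw [← e3]
      exact smul_mem_smul_set hy
    refine ⟨h3, ?_⟩
    rw [h2 _ h3, h1, inv_smul_smul]
    rfl

end Pool.Agent.H53.S
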