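import Pool.Agent.H78.S.TA

/-!
# MP_9d0bb7_lc, row NUM of sgt_modules
-/

set_option autoImplicit false

namespace Pool.Agent.H53.S

open Pool.Agent.H78.S

theorem pf_NUM : T_NUM := by
  intro n r h0 h1 hn hm hc
  classical
  -- some increment vanishes
  have hex : ∃ j, 1 ≤ j ∧ j ≤ n ∧ r (j + 1) = r j := by
    by_contra hcon
    push Not at hcon
    have key : ∀ j, 1 ≤ j → j ≤ n + 1 → r 1 + (j - 1) ≤ r j := by
      intro j hj
      induction j, hj using Nat.le_induction with
      | base => intro _; simp
      | succ j hj ih =>
        intro hjn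
        have h2 := ih (by omega)
        have h3 := hm j (by omega)
        have h4 := hcon j hj (by omega)
        omega
    have := key (n + 1) (by omega) le_rfl
    omega
  have hk := Nat.find_spec hex
  have hmin : ∀ j, j < Nat.find hex → ¬ (1 ≤ j ∧ j ≤ n ∧ r (j + 1) = r j) :=
    fun j hj => Nat.find_min hex hj
  generalize Nat.find hex = k at hk hmin
  obtain ⟨hk1, hkn, hkr⟩ := hk
  have hconst : ∀ j, k ≤ j → j ≤ n → r (j + 1) = r j := by
    intro j hj
    induction j, hj using Nat.le_induction with
    | base => intro _; exact hkr
    | succ j hj ih =>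
      intro hjn
      have h2 := ih (by omega)
      have h3 := hm (j + 1) (by omega)
      have h4 := hc j (by omega)
      have h5 : r (j + 1 + 1) = r (j + 2) := rfl
      omega
  have hc2 : ∀ j, k ≤ j → j ≤ n + 1 → r j = r k := by
    intro j hj
    induction j, hj using Nat.le_induction with
    | base => intro _; rfl
    | succ j hj ih =>
      intro hjn
      rw [hconst j hj (by omega), ih (by omega)]
  have hinc : ∀ j, 1 ≤ j → j < k → r j + 1 ≤ r (j + 1) := by
    intro j hj hjk
    have h2 := hmin j hjk
    have h3 := hm j (by omega)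
    by_contra h4
    exact h2 ⟨hj, by omega, by omega⟩
  have hsum : ∀ j, 1 ≤ j → j ≤ k → r 1 + (j - 1) ≤ r j := by
    intro j hj
    induction j, hj using Nat.le_induction with
    | base => intro _; simp
    | succ j hj ih =>
      intro hjn
      have h2 := ih (by omega)
      have h3 := hinc j hj (by omega)
      omega
  -- from `j` up to `k`
  have hup : ∀ j, 1 ≤ j → j ≤ k → r j + (k - j) ≤ r k := by
    intro j hj hjk
    obtain ⟨d, rfl⟩ := Nat.exists_eq_add_of_le hjk
    clear hc2 hconst hkr hkn hmin hk1 hsum
    have aux : ∀ e, e ≤ d → r j + e ≤ r (j + e) := by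
      intro e
      induction e with
      | zero => intro _; simp
      | succ e ih =>
        intro he
        have h2 := ih (by omega)
        have h3 := hinc (j + e) (by omega) (by omega)
        have h4 : j + e + 1 = j + (e + 1) := by ring
        rw [h4] at h3
        omega
    have := aux d le_rfl
    omega
  have h5 := hc2 (n + 1) (by omega) le_rfl
  have h6 := hsum k hk1 le_rfl
  refine ⟨k, hk1, hkn, hc2, by omega, ?_⟩
  intro he
  refine ⟨by omega, ?_⟩
  intro j hj hjk
  have h7 := hinc j hj hjk
  have h8 := hup (j + 1) (by omega) (by omega)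
  have h9 := hsum j hj (by omega)
  omega

end Pool.Agent.H53.S
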