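import Pool.Agent.H78.S.Targets

/-!
# MP_9d0bb7_lc, row ORB of sgt_modules: orbits and stabilisers
-/

set_option autoImplicit false

open Set Pool.Agent.H77.BC
open scoped Pointwise

namespace Pool.Agent.H53.S

open Pool.Agent.H78.S

variable {M : Type} {U : RU M}

theorem orb_eq {G S : Type} [Group G] [MulAction G S] (H : Subgroup G) (o : S) :
    Orb H o = (fun g : G => g • o) '' (H : Set G) := by
  ext y
  constructor
  · rintro ⟨h, hh, rfl⟩
    exact ⟨h, hh, rfl⟩
  · rintro ⟨h, hh, rfl⟩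
    exact ⟨h, hh, rfl⟩

theorem dfn_orb {G S : Type} [Group G] [MulAction G S] [Cod M G] [Cod M S] [DG U G] [Ful U S]
    (hact : DFn U (fun p : G × S => p.1 • p.2)) (o : S) : DFn U (fun g : G => g • o) :=
  DFn_comp (f := fun g : G => (g, o)) (g := fun p : G × S => p.1 • p.2) hact
    (DFn_pair DFn_id (DFn_const o))

theorem mem_fx {G S : Type} [Group G] [MulAction G S] {H : Subgroup G} {o : S} {g : G} :
    g ∈ Fx H o ↔ g ∈ H ∧ g • o = o := Iff.rfl

theorem d_fx {G S : Type} [Group G] [MulAction G S] [Cod M G] [Cod M S] [DG U G] [Ful U S]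
    (hact : DFn U (fun p : G × S => p.1 • p.2)) (H : Subgroup G) (o : S)
    (hH : U.D (H : Set G)) : U.D (Fx H o : Set G) := by
  have h := D_inter hH (DFn_preim (dfn_orb hact o) (D_singleton (U := U) o))
  have e : (Fx H o : Set G) = (H : Set G) ∩ {a : G | a • o ∈ ({o} : Set S)} := by
    ext g
    exact mem_fx
  rw [e]
  exact h

/-- the fibres of the orbit map are cosets -/
theorem r_fib {G S : Type} [Group G] [MulAction G S] [Cod M G] [Cod M S] [DG U G] [Ful U S]
    (hact : DFn U (fun p : G × S => p.1 • p.2)) (H : Subgroup G) (o : S)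
    (hH : U.D (H : Set G)) (b : S) (hb : b ∈ (fun g : G => g • o) '' (H : Set G)) :
    U.R {a : G | a ∈ (H : Set G) ∧ a • o = b} = U.R (Fx H o : Set G) := by
  obtain ⟨h, hh, rfl⟩ := hb
  have e : {a : G | a ∈ (H : Set G) ∧ a • o = (fun g : G => g • o) h} =
      (fun y : G => h * y) '' (Fx H o : Set G) := by
    ext a
    constructor
    · rintro ⟨ha, hao⟩
      refine ⟨h⁻¹ * a, ?_, by simp⟩
      rw [SetLike.mem_coe, mem_fx]
      refine ⟨H.mul_mem (H.inv_mem hh) ha, ?_⟩
      rw [mul_smul, hao]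
      simp
    · rintro ⟨y, hy, rfl⟩
      rw [SetLike.mem_coe, mem_fx] at hy
      refine ⟨H.mul_mem hh hy.1, ?_⟩
      change (h * y) • o = h • o
      rw [mul_smul, hy.2]
  rw [e]
  refine (l_RKB U).inj (d_fx hact H o hH) ?_ ⟨1, (Fx H o).one_mem⟩ ?_
  · exact DFn_comp (f := fun y : G => (h, y)) (g := fun p : G × G => p.1 * p.2) DG.mul
      (DFn_pair (DFn_const h) DFn_id)
  · intro y _ z _ hyz
    exact mul_left_cancel hyz

theorem pf_ORB (hBGA : T_BGA) (hIRI : T_IRI) (hIRG : T_IRG) : T_ORB := by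
  intro M U G S _ _ _ _ _ _ hact H o hH
  have hφ := dfn_orb hact o
  have hD : U.D (Orb H o) := by
    rw [orb_eq]
    exact DFn_image hφ hH
  refine ⟨hD, d_fx hact H o hH, ?_, ?_⟩
  · rw [orb_eq]
    refine l_GRC U H (Fx H o) (fun g : G => g • o) hH (d_fx hact H o hH) (fun g hg => hg.1) hφ ?_
    intro a ha b hb
    rw [mem_fx]
    constructor
    · intro h
      have h' : a • o = b • o := h
      refine ⟨H.mul_mem (H.inv_mem ha) hb, ?_⟩
      rw [mul_smul, ← h', inv_smul_smul]
    · rintro ⟨_, h⟩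
      change a • o = b • o
      rw [mul_smul, inv_smul_eq_iff] at h
      exact h.symm
  · intro hc
    have h1 := (hIRG U H hc).1
    have h2 := hIRI U (H : Set G) (fun g : G => g • o) (U.R (Fx H o : Set G)) h1 hφ
      (fun b hb => r_fib hact H o hH b hb)
    rw [← orb_eq] at h2
    exact ⟨h2.1, h2.2.2⟩

end Pool.Agent.H53.S
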