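import Pool.Agent.H78.S.Targets

/-!
# MP_9d0bb7_lc, row RNK of sgt_modules: ranks of the stabilisers
-/

set_option autoImplicit false

open Set Pool.Agent.H77.BC
open scoped Pointwise

namespace Pool.Agent.H53.S

open Pool.Agent.H78.S

variable {M : Type} {U : RU M}

theorem st_insert {G S : Type} [Group G] [MulAction G S] {ι : Type} (x : ι → S) (A : Set ι)
    (c : ι) : St G x (insert c A) = Fx (St G x A) (x c) := by
  ext g
  constructor
  · intro h
    exact ⟨fun i hi => h i (mem_insert_of_mem _ hi), h c (mem_insert _ _)⟩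
  · rintro ⟨h1, h2⟩ i hi
    rcases mem_insert_iff.1 hi with rfl | hi
    · exact h2
    · exact h1 i hi

theorem st_empty {G S : Type} [Group G] [MulAction G S] {ι : Type} (x : ι → S) :
    St G x (∅ : Set ι) = ⊤ := by
  ext g
  refine ⟨fun _ => trivial, fun _ i hi => ?_⟩
  exact hi.elim

theorem pf_RNK (hFPW : T_FPW) (hIRI : T_IRI) (hORB : T_ORB) (hSTD : T_STD) (hBGA : T_BGA) :
    T_RNK := by
  classical
  intro M U G S _ _ _ _ n x hF
  have := hF.dg
  have := hF.ful
  have := hF.tr
  have hact := hF.act
  have hOrb : Orb (⊤ : Subgroup G) (x 0) = (univ : Set S) := by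
    ext y
    refine ⟨fun _ => mem_univ _, fun _ => ?_⟩
    obtain ⟨g, hg⟩ := MulAction.exists_smul_eq G (x 0) y
    exact ⟨g, trivial, hg.symm⟩
  have htop : U.D ((⊤ : Subgroup G) : Set G) := hF.conn.1
  have hIrr : Irr U (univ : Set S) := by
    rw [← hOrb]
    exact ((hORB U hact ⊤ (x 0) htop).2.2.2 hF.conn).1
  refine ⟨hIrr, ?_⟩
  have hSt : ∀ A : Set (Fin (n + 2)), U.D (St G x A : Set G) := fun A => (hSTD U hact).1 _ x A
  -- one more point
  have hone : ∀ (A : Set (Fin (n + 2))) (c : Fin (n + 2)),
      U.R (St G x A : Set G) ≤ U.R (St G x (insert c A) : Set G) + n := by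
    intro A c
    have h1 := (hORB U hact (St G x A) (x c) (hSt A))
    have h2 := h1.2.2.1
    rw [← st_insert] at h2
    have h3 : U.R (Orb (St G x A) (x c)) ≤ U.R (univ : Set S) :=
      (l_RKA U).mono h1.1 Ful.full ⟨x c, 1, (St G x A).one_mem, by simp⟩ (subset_univ _)
    rw [hF.rk] at h3
    omega
  have hmany : ∀ (s : Finset (Fin (n + 2))) (A : Set (Fin (n + 2))),
      U.R (St G x A : Set G) ≤ U.R (St G x (A ∪ s) : Set G) + n * s.card := by
    intro s
    induction s using Finset.induction_on with
    | empty =>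
      intro A
      simp
    | insert c s hc ih =>
      intro A
      have h1 := ih A
      have h2 := hone (A ∪ s) c
      have e : A ∪ (((insert c s : Finset (Fin (n + 2)))) : Set (Fin (n + 2))) =
          insert c (A ∪ (s : Set (Fin (n + 2)))) := by
        rw [Finset.coe_insert]
        ext i
        simp only [mem_union, mem_insert_iff]
        tauto
      rw [e, Finset.card_insert_of_notMem hc]
      calc U.R (St G x A : Set G) ≤ U.R (St G x (A ∪ s) : Set G) + n * s.card := h1
        _ ≤ (U.R (St G x (insert c (A ∪ s)) : Set G) + n) + n * s.card := by omega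
        _ = U.R (St G x (insert c (A ∪ s)) : Set G) + n * (s.card + 1) := by ring
  -- the generic orbit
  let φ : G → (Fin (n + 2) → S) := fun g i => g • x i
  have hφ : DFn U φ := by
    refine DFn_vec fun i => ?_
    exact DFn_comp (f := fun g : G => (g, x i)) (g := fun p : G × S => p.1 • p.2) hact
      (DFn_pair DFn_id (DFn_const (x i)))
  have hfull : U.R (φ '' ((⊤ : Subgroup G) : Set G)) = (n + 2) * n := by
    have h1 : U.R (univ : Set (Fin (n + 2) → S)) = (n + 2) * n := by
      rw [(hFPW U hIrr (n + 2)).2, hF.rk]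
    obtain ⟨Y, hY1, hY2, _, hY4, hY5⟩ := hF.gen
    have hsub : Y ⊆ φ '' ((⊤ : Subgroup G) : Set G) := by
      intro y hy
      obtain ⟨g, hg⟩ := hY4 hy
      exact ⟨g, trivial, funext fun i => (hg i).symm⟩
    have hD : U.D (φ '' ((⊤ : Subgroup G) : Set G)) := DFn_image hφ htop
    have h2 := (l_RKA U).mono hY1 hD hY2 hsub
    have h3 := (l_RKA U).mono hD (Ful.full (U := U) (α := Fin (n + 2) → S))
      ⟨φ 1, 1, trivial, rfl⟩ (subset_univ _)
    omega
  have hker : U.R ((⊤ : Subgroup G) : Set G) = (n + 2) * n + U.R (St G x univ : Set G) := by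
    rw [← hfull]
    refine l_GRC U ⊤ (St G x univ) φ htop (hSt _) le_top hφ ?_
    intro a _ b _
    constructor
    · intro h i _
      have h1 : a • x i = b • x i := congrFun h i
      rw [mul_smul, ← h1, inv_smul_smul]
    · intro h
      funext i
      have h1 : (a⁻¹ * b) • x i = x i := h i (mem_univ i)
      rw [mul_smul, inv_smul_eq_iff] at h1
      exact h1.symm
  intro A
  have h1 := hmany A.toFinset ∅
  have h2 := hmany (Aᶜ).toFinset A
  rw [st_empty, empty_union, coe_toFinset] at h1
  rw [coe_toFinset, union_compl_self] at h2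
  have h3 : A.toFinset.card + (Aᶜ).toFinset.card = n + 2 := by
    rw [toFinset_compl, Finset.card_compl, Fintype.card_fin]
    have : A.toFinset.card ≤ n + 2 := by
      have := Finset.card_le_univ A.toFinset
      simpa using this
    omega
  have h4 : A.ncard = A.toFinset.card := ncard_eq_toFinset_card' A
  rw [Subgroup.coe_top] at h1 hker
  rw [h4]
  have h5 : n * A.toFinset.card + n * (Aᶜ).toFinset.card = (n + 2) * n := by
    rw [← mul_add, h3]
    ring
  omega

end Pool.Agent.H53.S
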